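import Pool.Agent.Lib.MP_07564b_ag.Reg

set_option autoImplicit false

namespace Pool.Agent.Lib.MP_07564b_ag

open Matrix

/-- An algebraic vector bundle on `ℙ^n` whose fibre has coordinates indexed by the finite type
`ρ` (so the rank is the cardinality of `ρ`): a Zariski open cover with a cocycle of transition
matrices with regular entries. Coordinates change by `v_i = g i j x * v_j`. -/
structure VB (n : ℕ) (ρ : Type) [Fintype ρ] [DecidableEq ρ] where
  ι : Type
  U : ι → Set (PP n)
  isOpen : ∀ i, IsZOpen (U i)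
  cover : ∀ x, ∃ i, x ∈ U i
  g : ι → ι → PP n → Matrix ρ ρ ℂ
  reg : ∀ i j a b, IsReg (U i ∩ U j) fun x => g i j x a b
  self : ∀ i, ∀ x ∈ U i, g i i x = 1
  cocycle : ∀ i j k, ∀ x, x ∈ U i → x ∈ U j → x ∈ U k → g i j x * g j k x = g i k x

variable {n : ℕ} {ρ σ : Type} [Fintype ρ] [DecidableEq ρ] [Fintype σ] [DecidableEq σ]

/-- A morphism of vector bundles: matrices with regular entries from the chart `i` of `E` to
the chart `α` of `F`, compatible with the transition matrices. -/
structure Hom (E : VB n ρ) (F : VB n σ) where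
  m : E.ι → F.ι → PP n → Matrix σ ρ ℂ
  reg : ∀ i α a b, IsReg (E.U i ∩ F.U α) fun x => m i α x a b
  compat : ∀ i j α β, ∀ x, x ∈ E.U i → x ∈ E.U j → x ∈ F.U α → x ∈ F.U β →
    F.g α β x * m j β x = m i α x * E.g i j x

/-- Isomorphic vector bundles: mutually inverse morphisms. -/
def Iso (E : VB n ρ) (F : VB n σ) : Prop :=
  ∃ (h : Hom E F) (k : Hom F E), ∀ i α, ∀ x, x ∈ E.U i → x ∈ F.U α →
    k.m α i x * h.m i α x = 1 ∧ h.m i α x * k.m α i x = 1

/-- Pull-back along the map `ℙ^m → ℙ^n` induced by an injective linear map. -/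
noncomputable def VB.comap {m : ℕ} (E : VB n ρ) (φ : (Fin (m + 1) → ℂ) →ₗ[ℂ] (Fin (n + 1) → ℂ))
    (hφ : Function.Injective φ) : VB m ρ where
  ι := E.ι
  U i := Projectivization.map φ hφ ⁻¹' E.U i
  isOpen i := (E.isOpen i).comap φ hφ
  cover _ := E.cover _
  g i j x := E.g i j (Projectivization.map φ hφ x)
  reg i j a b := (E.reg i j a b).comap φ hφ
  self i _ hx := E.self i _ hx
  cocycle i j k _ := E.cocycle i j k _

/-- Direct sum of a finite family of vector bundles (block diagonal transition matrices). -/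
noncomputable def dsum {m : ℕ} {r : Fin m → ℕ} (E : ∀ a, VB n (Fin (r a))) :
    VB n (Σ a, Fin (r a)) where
  ι := ∀ a, (E a).ι
  U i := ⋂ a, (E a).U (i a)
  isOpen i := IsZOpen.iInter fun a => (E a).isOpen (i a)
  cover x := by
    choose i hi using fun a => (E a).cover x
    exact ⟨i, Set.mem_iInter.2 hi⟩
  g i j x := blockDiagonal' fun a => (E a).g (i a) (j a) x
  reg i j := by
    rintro ⟨a, p⟩ ⟨b, q⟩
    by_cases h : a = b
    · subst h
      simp only [blockDiagonal'_apply_eq]
      exact ((E a).reg _ _ p q).mono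
        (Set.inter_subset_inter (Set.iInter_subset _ a) (Set.iInter_subset _ a))
    · simp only [blockDiagonal'_apply_ne _ _ _ h]
      exact IsReg.const _ 0
  self i x hx := by
    rw [← blockDiagonal'_one]
    exact congrArg _ (funext fun a => (E a).self _ x (Set.mem_iInter.1 hx a))
  cocycle i j k x hi hj hk := by
    rw [← blockDiagonal'_mul]
    exact congrArg _ (funext fun a => (E a).cocycle _ _ _ x (Set.mem_iInter.1 hi a)
      (Set.mem_iInter.1 hj a) (Set.mem_iInter.1 hk a))

/-- The Jacobian matrix of the change from the affine coordinates `x_l / x_j` (`l ≠ j`) to the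
affine coordinates `x_k / x_i` (`k ≠ i`): the transition matrix of the tangent bundle. -/
noncomputable def jac (i j : Fin (n + 1)) (x : PP n) : Matrix (Fin n) (Fin n) ℂ :=
  Matrix.of fun k l => ratio j i x *
    ((if i.succAbove k = j.succAbove l then 1 else 0) -
      (if i = j.succAbove l then ratio (i.succAbove k) i x else 0))

theorem jac_reg (i j : Fin (n + 1)) (k l : Fin n) : IsReg (chart i) fun x => jac i j x k l := by
  refine (isReg_ratio j i).mul ((IsReg.const _ _).sub ?_)
  split_ifs
  · exact isReg_ratio _ _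
  · exact IsReg.const _ _

theorem jac_self (i : Fin (n + 1)) (x : PP n) (hx : x ∈ chart i) : jac i i x = 1 := by
  ext k l
  simp [jac, ratio, div_self hx, one_apply]

theorem jac_mul (i j k : Fin (n + 1)) (x : PP n) (hi : x ∈ chart i) (hj : x ∈ chart j) :
    jac i j x * jac j k x = jac i k x := by
  have hi' : x.rep i ≠ 0 := hi
  have hj' : x.rep j ≠ 0 := hj
  ext p q
  let A : Fin (n + 1) → ℂ := fun s => ratio j i x *
    ((if i.succAbove p = s then 1 else 0) - (if i = s then ratio (i.succAbove p) i x else 0))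
  let B : Fin (n + 1) → ℂ := fun s => ratio k j x *
    ((if s = k.succAbove q then 1 else 0) - (if j = k.succAbove q then ratio s j x else 0))
  have h1 : (jac i j x * jac j k x) p q = ∑ l, A (j.succAbove l) * B (j.succAbove l) := rfl
  have h2 : B j = 0 := by
    simp only [B]
    split_ifs <;> simp [ratio, div_self hj']
  have h3 : ∑ s, A s * B s = ∑ l, A (j.succAbove l) * B (j.succAbove l) := by
    rw [Fin.sum_univ_succAbove _ j, h2, mul_zero, zero_add]
  have h4 : ∀ f : Fin (n + 1) → ℂ, ∑ s, A s * f s =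
      ratio j i x * (f (i.succAbove p) - ratio (i.succAbove p) i x * f i) := by
    intro f
    simp only [A, mul_sub, sub_mul, mul_ite, ite_mul, mul_one, mul_zero, zero_mul,
      Finset.sum_sub_distrib, Finset.sum_ite_eq, Finset.mem_univ, if_true]
    ring
  rw [h1, ← h3, h4]
  simp only [B, jac, of_apply, ratio]
  split_ifs <;> field_simp <;> ring

/-- The kinds of summands: `O e`, `T c`, `Om d` stand for `O(e)`, `T(c)`, `Ω(d)`. -/
inductive Kind : Type
  | O (e : ℤ)
  | T (c : ℤ)
  | Om (d : ℤ)

/-- The rank of a summand on `ℙ^n`. -/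
def Kind.rk (n : ℕ) : Kind → ℕ
  | .O _ => 1
  | .T _ => n
  | .Om _ => n

/-- Transition matrices on the standard affine cover: `(x_j / x_i)^e` for `O(e)`, this factor
times the Jacobian matrix for `T(c)`, and times its inverse transpose for `Ω(d)`. -/
noncomputable def Kind.coc (n : ℕ) : (k : Kind) → Fin (n + 1) → Fin (n + 1) → PP n →
    Matrix (Fin (k.rk n)) (Fin (k.rk n)) ℂ
  | .O e => fun i j x => ratio j i x ^ e • (1 : Matrix (Fin 1) (Fin 1) ℂ)
  | .T c => fun i j x => ratio j i x ^ c • jac i j x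
  | .Om d => fun i j x => ratio j i x ^ d • (jac j i x)ᵀ

theorem ratio_zpow_mul (i j k : Fin (n + 1)) (x : PP n) (hj : x ∈ chart j) (e : ℤ) :
    ratio k j x ^ e * ratio j i x ^ e = ratio k i x ^ e := by
  have hj' : x.rep j ≠ 0 := hj
  rw [← mul_zpow, ratio, ratio, ratio, div_mul_div_cancel₀ hj']

theorem twist_mul (i j k : Fin (n + 1)) (x : PP n) (hj : x ∈ chart j) (e : ℤ)
    {A B C : Matrix ρ ρ ℂ} (h : A * B = C) :
    (ratio j i x ^ e • A) * (ratio k j x ^ e • B) = ratio k i x ^ e • C := by
  rw [Matrix.smul_mul, Matrix.mul_smul, smul_smul, mul_comm, ratio_zpow_mul i j k x hj, h]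

theorem ratio_self (i : Fin (n + 1)) (x : PP n) (hi : x ∈ chart i) : ratio i i x = 1 :=
  div_self hi

/-- The bundles `O(e)`, `T(c)`, `Ω(d)` on `ℙ^n`. -/
noncomputable def Kind.bundle (n : ℕ) (k : Kind) : VB n (Fin (k.rk n)) where
  ι := Fin (n + 1)
  U := chart
  isOpen := isZOpen_chart
  cover := exists_chart
  g := k.coc n
  reg i j a b := by
    cases k with
    | O e => exact (isReg_ratio_zpow i j e).mul (IsReg.const _ _)
    | T c => exact (isReg_ratio_zpow i j c).mul ((jac_reg i j a b).mono Set.inter_subset_left)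
    | Om d => exact (isReg_ratio_zpow i j d).mul ((jac_reg j i b a).mono Set.inter_subset_right)
  self i x hx := by
    cases k <;> simp [Kind.coc, ratio_self i x hx, jac_self i x hx] <;> rfl
  cocycle i j l x hi hj hl := by
    cases k with
    | O e => exact twist_mul i j l x hj e (Matrix.mul_one (1 : Matrix (Fin 1) (Fin 1) ℂ))
    | T c => exact twist_mul i j l x hj c (jac_mul i j l x hi hj)
    | Om d =>
      exact twist_mul i j l x hj d ((transpose_mul _ _).symm.trans
        (congrArg transpose (jac_mul l j i x hl hj)))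

/-- `E` is uniform: there are integers `a_1, ..., a_r` such that for every line, parametrized
by an injective linear map `ℂ^2 → ℂ^(n+1)`, the restriction of `E` is isomorphic to
`O(a_1) ⊕ ... ⊕ O(a_r)` on `ℙ^1`. -/
def Uniform {r : ℕ} (E : VB n (Fin r)) : Prop :=
  ∃ a : Fin r → ℤ, ∀ (φ : (Fin (1 + 1) → ℂ) →ₗ[ℂ] (Fin (n + 1) → ℂ)) (hφ : Function.Injective φ),
    Iso (E.comap φ hφ) (dsum fun s => (Kind.O (a s)).bundle 1)

/-- `E` is isomorphic to a direct sum of bundles `O(e)`, `T(c)`, `Ω(d)`. -/
def SumOTOm (E : VB n ρ) : Prop :=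
  ∃ (m : ℕ) (k : Fin m → Kind), Iso E (dsum fun s => (k s).bundle n)

/-- `E` is homogeneous: isomorphic to its pull-back by every linear automorphism. -/
def Homogeneous (E : VB n ρ) : Prop :=
  ∀ φ : (Fin (n + 1) → ℂ) ≃ₗ[ℂ] (Fin (n + 1) → ℂ), Iso (E.comap φ.toLinearMap φ.injective) E

end Pool.Agent.Lib.MP_07564b_ag
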