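import Pool.Agent.Lib.MP_07564b_ag.Defs

-- part Pool.Agent.Lib.MP_07564b_ag.Gen
section

set_option autoImplicit false

namespace Pool.Agent.Lib.MP_07564b_ag

open Matrix MvPolynomial Filter Topology

variable {n : ℕ} {ρ σ : Type} [Fintype ρ] [DecidableEq ρ] [Fintype σ] [DecidableEq σ]

theorem isReg_det {U : Set (PP n)} {M : PP n → Matrix ρ ρ ℂ}
    (h : ∀ a b, IsReg U fun x => M x a b) : IsReg U fun x => (M x).det := by
  simp only [det_apply']
  exact IsReg.sum _ fun s _ => (IsReg.const _ _).mul (IsReg.prod _ fun i _ => h _ _)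

theorem isReg_inv {U : Set (PP n)} {M : PP n → Matrix ρ ρ ℂ}
    (h : ∀ a b, IsReg U fun x => M x a b) (h0 : ∀ x ∈ U, (M x).det ≠ 0) (a b : ρ) :
    IsReg U fun x => (M x)⁻¹ a b := by
  simp only [Matrix.inv_def, Ring.inverse_eq_inv', Matrix.smul_apply, smul_eq_mul, adjugate_apply]
  refine ((isReg_det h).inv h0).mul (isReg_det fun c d => ?_)
  simp only [updateRow_apply]
  split_ifs
  · exact IsReg.const _ _
  · exact h _ _

/-- A morphism that is injective on all fibres between bundles of equal rank is an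
isomorphism. -/
theorem iso_of_inj {E : VB n ρ} {F : VB n σ} (k : Hom F E) (e : σ ≃ ρ)
    (hk : ∀ α i, ∀ x, x ∈ F.U α → x ∈ E.U i → Function.Injective (k.m α i x).mulVec) :
    Iso E F := by
  let M : F.ι → E.ι → PP n → Matrix ρ ρ ℂ := fun α i x => (k.m α i x).submatrix id e.symm
  have hM : ∀ α i, ∀ x, x ∈ F.U α → x ∈ E.U i → IsUnit (M α i x).det := by
    intro α i x h1 h2
    rw [← isUnit_iff_isUnit_det, ← mulVec_injective_iff_isUnit]
    intro u v huv
    simp only [M, submatrix_mulVec_equiv] at huv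
    have := hk α i x h1 h2 huv
    funext a
    simpa using congrFun this (e.symm a)
  let H : E.ι → F.ι → PP n → Matrix σ ρ ℂ := fun i α x => (M α i x)⁻¹.submatrix e id
  have hkM : ∀ α i x, k.m α i x = (M α i x).submatrix id e := by
    intro α i x
    ext a b
    simp [M]
  have h1 : ∀ i α, ∀ x, x ∈ E.U i → x ∈ F.U α → k.m α i x * H i α x = 1 := by
    intro i α x hi hα
    rw [hkM]
    simp only [H]
    rw [submatrix_mul_equiv, mul_nonsing_inv _ (hM α i x hα hi)]
    simp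
  have h2 : ∀ i α, ∀ x, x ∈ E.U i → x ∈ F.U α → H i α x * k.m α i x = 1 := by
    intro i α x hi hα
    rw [hkM]
    simp only [H]
    have := submatrix_mul_equiv (M α i x)⁻¹ (M α i x) e (Equiv.refl ρ) e
    simp only [Equiv.coe_refl] at this
    rw [this, nonsing_inv_mul _ (hM α i x hα hi)]
    simp
  refine ⟨⟨H, fun i α a b => ?_, fun i j α β x hi hj hα hβ => ?_⟩, k, fun i α x hi hα =>
    ⟨h1 i α x hi hα, h2 i α x hi hα⟩⟩
  · exact isReg_inv (M := M α i) (U := E.U i ∩ F.U α)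
      (fun c d => (k.reg α i c (e.symm d)).mono (by rw [Set.inter_comm]))
      (fun x hx => (hM α i x hx.2 hx.1).ne_zero) (e a) b
  · have := k.compat α β i j x hα hβ hi hj
    calc F.g α β x * H j β x = (H i α x * k.m α i x) * F.g α β x * H j β x := by
          rw [h2 i α x hi hα, Matrix.one_mul]
      _ = H i α x * E.g i j x * (k.m β j x * H j β x) := by
          rw [Matrix.mul_assoc (H i α x), ← this]; simp only [Matrix.mul_assoc]
      _ = H i α x * E.g i j x := by rw [h1 j β x hj hβ, Matrix.mul_one]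

/-- The point `[a + t b]`. -/
noncomputable def pt (a b : Fin (n + 1) → ℂ) (h : ∀ t : ℂ, a + t • b ≠ 0) (t : ℂ) : PP n :=
  Projectivization.mk ℂ (a + t • b) (h t)

theorem pt_rep (a b : Fin (n + 1) → ℂ) (h : ∀ t : ℂ, a + t • b ≠ 0) (t : ℂ) :
    ∃ c : ℂ, c ≠ 0 ∧ (pt a b h t).rep = c • (a + t • b) := by
  obtain ⟨c, hc⟩ := Projectivization.exists_smul_eq_mk_rep ℂ (a + t • b) (h t)
  exact ⟨c, c.ne_zero, hc.symm⟩

theorem diff_eval (a b : Fin (n + 1) → ℂ) (P : MvPolynomial (Fin (n + 1)) ℂ) :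
    Differentiable ℂ fun t : ℂ => eval (a + t • b) P := by
  intro t
  have h1 : DifferentiableAt ℂ (fun v : Fin (n + 1) → ℂ => eval v P) (a + t • b) :=
    (AnalyticOnNhd.eval_mvPolynomial P _ (Set.mem_univ _)).differentiableAt
  exact DifferentiableAt.comp (g := fun v : Fin (n + 1) → ℂ => eval v P)
    (f := fun t : ℂ => a + t • b) t h1 (by fun_prop)

theorem IsReg.diffAt {U : Set (PP n)} (hU : IsZOpen U) {f : PP n → ℂ} (hf : IsReg U f)
    (a b : Fin (n + 1) → ℂ) (h : ∀ t : ℂ, a + t • b ≠ 0) (t : ℂ) (ht : pt a b h t ∈ U) :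
    DifferentiableAt ℂ (fun t => f (pt a b h t)) t := by
  obtain ⟨d, P, Q, hP, hQ, h1, h2⟩ := hf _ ht
  obtain ⟨d', Q', hQ', h3, h4⟩ := hU _ ht
  have key : ∀ {d : ℕ} {Q : MvPolynomial (Fin (n + 1)) ℂ}, Q.IsHomogeneous d → ∀ s,
      (eval (pt a b h s).rep Q ≠ 0 ↔ eval (a + s • b) Q ≠ 0) := by
    intro d Q hQ s
    obtain ⟨c, hc, e⟩ := pt_rep a b h s
    rw [e, eval_smul_hom hQ]
    simp [hc]
  have e1 : ∀ᶠ s in 𝓝 t, eval (a + s • b) Q ≠ 0 :=
    (diff_eval a b Q).continuous.continuousAt.eventually_ne ((key hQ t).1 h1)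
  have e2 : ∀ᶠ s in 𝓝 t, eval (a + s • b) Q' ≠ 0 :=
    (diff_eval a b Q').continuous.continuousAt.eventually_ne ((key hQ' t).1 h3)
  have e3 : (fun s => f (pt a b h s)) =ᶠ[𝓝 t] fun s => eval (a + s • b) P / eval (a + s • b) Q := by
    filter_upwards [e1, e2] with s s1 s2
    rw [h2 _ (h4 _ ((key hQ' s).2 s2)) ((key hQ s).2 s1)]
    obtain ⟨c, hc, e⟩ := pt_rep a b h s
    rw [e, eval_smul_hom hP, eval_smul_hom hQ, mul_div_mul_left _ _ (pow_ne_zero d hc)]
  exact (((diff_eval a b P) t).div ((diff_eval a b Q) t) ((key hQ t).1 h1)).congr_of_eventuallyEq e3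

/-- Sections of negative degree on the projective line vanish. -/
theorem vanish {f g : ℂ → ℂ} (hf : Differentiable ℂ f) (hg : ContinuousAt g 0) {e : ℤ}
    (he : e < 0) (h : ∀ t, t ≠ 0 → f t = t ^ e * g t⁻¹) (t : ℂ) : f t = 0 := by
  obtain ⟨m, rfl⟩ : ∃ m : ℕ, e = -((m + 1 : ℕ) : ℤ) := ⟨(-e - 1).toNat, by omega⟩
  refine hf.apply_eq_of_tendsto_cocompact t ?_
  have h1 : Tendsto (fun t : ℂ => t⁻¹) (cocompact ℂ) (𝓝 0) := by
    rw [← Metric.cobounded_eq_cocompact]; exact tendsto_inv₀_cobounded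
  have h2 : ContinuousAt (fun u : ℂ => u ^ (m + 1) * g u) 0 := by fun_prop
  have h3 := h2.tendsto.comp h1
  simp only [ne_eq, Nat.add_eq_zero_iff, one_ne_zero, and_false, not_false_eq_true, zero_pow,
    zero_mul] at h3
  refine h3.congr' ?_
  filter_upwards [(isCompact_singleton (x := (0:ℂ))).compl_mem_cocompact] with s hs
  rw [h s hs, Function.comp_apply, _root_.zpow_neg, _root_.zpow_natCast, inv_pow]

/-- An injective linear map from the plane extends to an invertible matrix. -/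
theorem exists_ext (φ : (Fin (1 + 1) → ℂ) →ₗ[ℂ] (Fin (5 + 1) → ℂ)) (hφ : Function.Injective φ) :
    ∃ T : Matrix (Fin 6) (Fin 6) ℂ, IsUnit T.det ∧ ∀ y : Fin (1 + 1) → ℂ,
      φ y = T *ᵥ ![y 0, y 1, 0, 0, 0, 0] := by
  have h2 : LinearIndependent ℂ fun i : Fin 2 => φ (Pi.single i 1) :=
    (Pi.linearIndependent_single_one (Fin 2) ℂ).map' φ (LinearMap.ker_eq_bot.2 hφ)
  obtain ⟨w2, h3⟩ := exists_linearIndependent_snoc_of_lt_finrank h2 (by simp)
  obtain ⟨w3, h4⟩ := exists_linearIndependent_snoc_of_lt_finrank h3 (by simp)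
  obtain ⟨w4, h5⟩ := exists_linearIndependent_snoc_of_lt_finrank h4 (by simp)
  obtain ⟨w5, h6⟩ := exists_linearIndependent_snoc_of_lt_finrank h5 (by simp)
  refine ⟨(Matrix.of (Fin.snoc (Fin.snoc (Fin.snoc (Fin.snoc
    (fun i : Fin 2 => φ (Pi.single i 1)) w2) w3) w4) w5 : Fin 6 → Fin 6 → ℂ))ᵀ, ?_, fun y => ?_⟩
  · rw [det_transpose, ← isUnit_iff_isUnit_det]
    exact linearIndependent_rows_iff_isUnit.1 h6
  · conv_lhs => rw [pi_eq_sum_univ' y]
    funext r
    simp [mulVec, dotProduct, Fin.sum_univ_succ, Fin.snoc, mul_comm]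

end Pool.Agent.Lib.MP_07564b_ag
end

-- part Pool.Agent.Lib.MP_07564b_ag.Bundle
section

set_option autoImplicit false

namespace Pool.Agent.Lib.MP_07564b_ag

open Matrix

abbrev V6 : Type := Fin 6 → ℂ
abbrev M6 : Type := Matrix (Fin 6) (Fin 6) ℂ

/-- The bivector `a ∧ b` as a skew matrix. -/
def wedge (a b : V6) : M6 := Matrix.of fun k l => a k * b l - b k * a l

/-- Integer table of the symplectic form. -/
def omZ (k l : Fin 6) : ℤ :=
  if (k = 0 ∧ l = 1) ∨ (k = 2 ∧ l = 3) ∨ (k = 4 ∧ l = 5) then 1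
  else if (k = 1 ∧ l = 0) ∨ (k = 3 ∧ l = 2) ∨ (k = 5 ∧ l = 4) then -1 else 0

/-- The bivector `e0 ∧ e1 + e2 ∧ e3 + e4 ∧ e5`. -/
def om : M6 := Matrix.of fun k l => (omZ k l : ℂ)

def pp (i : Fin 6) : Fin 6 := ![2, 2, 4, 4, 2, 2] i
def qq (i : Fin 6) : Fin 6 := ![3, 3, 5, 5, 3, 3] i

def pr (i : Fin 6) (m : Fin 9) : Fin 6 × Fin 6 :=
  ![![(1, 2), (1, 3), (1, 4), (1, 5), (2, 4), (2, 5), (3, 4), (3, 5), (4, 5)],
    ![(0, 2), (0, 3), (0, 4), (0, 5), (2, 4), (2, 5), (3, 4), (3, 5), (4, 5)],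
    ![(0, 1), (0, 3), (0, 4), (0, 5), (1, 3), (1, 4), (1, 5), (3, 4), (3, 5)],
    ![(0, 1), (0, 2), (0, 4), (0, 5), (1, 2), (1, 4), (1, 5), (2, 4), (2, 5)],
    ![(0, 1), (0, 2), (0, 3), (0, 5), (1, 2), (1, 3), (1, 5), (2, 5), (3, 5)],
    ![(0, 1), (0, 2), (0, 3), (0, 4), (1, 2), (1, 3), (1, 4), (2, 4), (3, 4)]] i m

theorem t_om : ∀ i, omZ (pp i) (qq i) = 1 ∧ omZ i (qq i) = 0 ∧ omZ (pp i) i = 0 := by decide
theorem t_skew : ∀ k l, omZ l k = - omZ k l := by decide
theorem t_ne : ∀ i m, (pr i m).1 ≠ i ∧ (pr i m).2 ≠ i ∧ (pr i m).1 < (pr i m).2 ∧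
    pr i m ≠ (pp i, qq i) ∧ pp i < qq i := by decide
theorem t_inj : ∀ i m m', pr i m = pr i m' → m = m' := by decide
theorem t_cov : ∀ i k l, k < l → k = i ∨ l = i ∨ (k = pp i ∧ l = qq i) ∨ ∃ m, pr i m = (k, l) := by
  decide

/-- Reduction modulo `y ∧ V`. -/
def red (i : Fin 6) (y : V6) (A : M6) (k l : Fin 6) : ℂ := A k l - y k * A i l - A k i * y l

/-- Coordinates of a bivector modulo `y ∧ V` and `om` in the chart `i`. -/
def cc (i : Fin 6) (y : V6) : M6 →ₗ[ℂ] (Fin 9 → ℂ) where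
  toFun A m := red i y A (pr i m).1 (pr i m).2 -
    red i y A (pp i) (qq i) * red i y om (pr i m).1 (pr i m).2
  map_add' A B := by funext m; simp only [red, Matrix.add_apply, Pi.add_apply]; ring
  map_smul' c A := by
    funext m
    simp only [red, Matrix.smul_apply, smul_eq_mul, RingHom.id_apply, Pi.smul_apply]; ring

theorem cc_apply (i : Fin 6) (y : V6) (A : M6) (m : Fin 9) : cc i y A m =
    red i y A (pr i m).1 (pr i m).2 -
      red i y A (pp i) (qq i) * red i y om (pr i m).1 (pr i m).2 := rfl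

def ee (k : Fin 6) : V6 := Pi.single k 1

def bas (i : Fin 6) (m : Fin 9) : M6 := wedge (ee (pr i m).1) (ee (pr i m).2)

def ss (i : Fin 6) (u : Fin 9 → ℂ) : M6 := ∑ m, u m • bas i m

def Skew (A : M6) : Prop := ∀ k l, A l k = - A k l

theorem skew_wedge (a b : V6) : Skew (wedge a b) := fun k l => by simp [wedge]; ring
theorem skew_om : Skew om := fun k l => by simp [om, t_skew k l]
theorem Skew.sub {A B : M6} (hA : Skew A) (hB : Skew B) : Skew (A - B) := fun k l => by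
  simp only [Matrix.sub_apply, hA k l, hB k l]; ring
theorem Skew.smul {A : M6} (hA : Skew A) (c : ℂ) : Skew (c • A) := fun k l => by
  simp only [Matrix.smul_apply, smul_eq_mul, hA k l]; ring
theorem skew_sum {α : Type} (s : Finset α) {f : α → M6} (h : ∀ a, Skew (f a)) :
    Skew (∑ a ∈ s, f a) := fun k l => by
  simp only [Matrix.sum_apply, ← Finset.sum_neg_distrib]
  exact Finset.sum_congr rfl fun a _ => h a k l
theorem skew_ss (i : Fin 6) (u : Fin 9 → ℂ) : Skew (ss i u) :=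
  skew_sum _ fun _ => (skew_wedge _ _).smul _
theorem Skew.diag {A : M6} (hA : Skew A) (k : Fin 6) : A k k = 0 := by
  have := hA k k
  linear_combination this / 2

theorem wedge_ee (a b k l : Fin 6) (hab : a < b) (hkl : k < l) :
    wedge (ee a) (ee b) k l = if (a, b) = (k, l) then 1 else 0 := by
  simp only [wedge, ee, of_apply, Pi.single_apply, Prod.mk.injEq]
  split_ifs <;> first | simp; done | omega

theorem red_bas (i : Fin 6) (y : V6) (m : Fin 9) (k l : Fin 6) :
    red i y (bas i m) k l = bas i m k l := by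
  obtain ⟨h1, h2, -⟩ := t_ne i m
  simp [red, bas, wedge, ee, Pi.single_apply, h1.symm, h2.symm]

theorem cc_bas (i : Fin 6) (y : V6) (m : Fin 9) : cc i y (bas i m) = Pi.single m 1 := by
  funext m'
  obtain ⟨-, -, h3, h4, h5⟩ := t_ne i m
  rw [cc_apply, red_bas, red_bas, bas, wedge_ee _ _ _ _ h3 (t_ne i m').2.2.1,
    wedge_ee _ _ _ _ h3 h5, if_neg h4, zero_mul, sub_zero, Pi.single_apply]
  by_cases h : m' = m
  · simp [h]
  · rw [if_neg h, if_neg fun e => h (t_inj i m m' e).symm]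

theorem cc_ss (i : Fin 6) (y : V6) (u : Fin 9 → ℂ) : cc i y (ss i u) = u := by
  simp only [ss, map_sum, map_smul, cc_bas]
  exact (pi_eq_sum_univ' u).symm

theorem red_wedge {i : Fin 6} {y : V6} (hy : y i = 1) (v : V6) (k l : Fin 6) :
    red i y (wedge y v) k l = 0 := by
  simp only [red, wedge, of_apply, hy]; ring

theorem cc_wedge {i : Fin 6} {y : V6} (hy : y i = 1) (v : V6) : cc i y (wedge y v) = 0 := by
  funext m
  simp [cc_apply, red_wedge hy]

theorem red_om (i : Fin 6) (y : V6) : red i y om (pp i) (qq i) = 1 := by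
  obtain ⟨h1, h2, h3⟩ := t_om i
  simp [red, om, h1, h2, h3]

theorem cc_om (i : Fin 6) (y : V6) : cc i y om = 0 := by
  funext m
  simp [cc_apply, red_om]

theorem cc_ker {i : Fin 6} {y : V6} (hy : y i = 1) {A : M6} (hA : Skew A) (h : cc i y A = 0) :
    ∃ (v : V6) (c : ℂ), A = wedge y v + c • om := by
  set c := red i y A (pp i) (qq i) with hc
  set B := A - c • om with hB
  have sB : Skew B := hA.sub (skew_om.smul c)
  have hred : ∀ k l, red i y B k l = red i y A k l - c * red i y om k l := by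
    intro k l
    simp only [red, hB, Matrix.sub_apply, Matrix.smul_apply, smul_eq_mul]; ring
  have h1 : ∀ k l, k < l → red i y B k l = 0 := by
    intro k l hkl
    rcases t_cov i k l hkl with rfl | rfl | ⟨rfl, rfl⟩ | ⟨m, hm⟩
    · simp [red, hy, sB.diag]
    · simp [red, hy, sB.diag]
    · rw [hred, red_om, mul_one, sub_self]
    · have := congrFun h m
      rw [cc_apply, hm] at this
      rw [hred]; exact this
  have h2 : ∀ k l, red i y B k l = 0 := by
    intro k l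
    rcases lt_trichotomy k l with g | g | g
    · exact h1 k l g
    · subst g
      simp only [red, sB.diag, sB i k]; ring
    · have := h1 l k g
      simp only [red, sB l k, sB l i, sB i k] at this ⊢
      linear_combination - this
  refine ⟨B i, c, ?_⟩
  rw [← sub_eq_iff_eq_add]
  ext k l
  have := h2 k l
  simp only [red, sB i k] at this
  simp only [wedge, of_apply]
  linear_combination this

theorem wedge_smul_left (c : ℂ) (a b : V6) : wedge (c • a) b = wedge a (c • b) := by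
  ext k l; simp [wedge]; ring

/-- Normalized homogeneous coordinates. -/
noncomputable def YY (i : Fin 6) (x : PP 5) : V6 := fun k => ratio k i x

theorem YY_self {i : Fin 6} {x : PP 5} (hx : x ∈ chart i) : YY i x i = 1 := ratio_self i x hx

theorem YY_eq (i : Fin 6) (x : PP 5) : YY i x = (x.rep i)⁻¹ • x.rep := by
  funext k; simp [YY, ratio, div_eq_inv_mul]

/-- Coordinates in the chart `i` at the point `x`. -/
noncomputable def CC (i : Fin 6) (x : PP 5) : M6 →ₗ[ℂ] (Fin 9 → ℂ) := cc i (YY i x)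

theorem CC_wedge {i : Fin 6} {x : PP 5} (hx : x ∈ chart i) (v : V6) :
    CC i x (wedge x.rep v) = 0 := by
  have hx' : x.rep i ≠ 0 := hx
  have : x.rep = x.rep i • YY i x := by rw [YY_eq, smul_smul, mul_inv_cancel₀ hx', one_smul]
  rw [this, wedge_smul_left]
  exact cc_wedge (YY_self hx) _

theorem CC_ker {i : Fin 6} {x : PP 5} (hx : x ∈ chart i) {A : M6} (hA : Skew A)
    (h : CC i x A = 0) : ∃ (v : V6) (c : ℂ), A = wedge x.rep v + c • om := by
  obtain ⟨v, c, e⟩ := cc_ker (YY_self hx) hA h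
  exact ⟨_, c, by rw [e, YY_eq, wedge_smul_left]⟩

theorem ss_CC {i : Fin 6} {x : PP 5} (hx : x ∈ chart i) {A : M6} (hA : Skew A) :
    ∃ (v : V6) (c : ℂ), A = ss i (CC i x A) + (wedge x.rep v + c • om) := by
  obtain ⟨v, c, e⟩ := CC_ker hx (hA.sub (skew_ss i (CC i x A))) (by
    rw [map_sub]; exact sub_eq_zero.2 (cc_ss _ _ _).symm)
  exact ⟨v, c, by rw [← e]; abel⟩

theorem CC_ss_CC {i j : Fin 6} {x : PP 5} (hi : x ∈ chart i) (hj : x ∈ chart j) {A : M6}
    (hA : Skew A) : CC i x (ss j (CC j x A)) = CC i x A := by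
  obtain ⟨v, c, e⟩ := ss_CC hj hA
  conv_rhs => rw [e]
  rw [map_add, map_add, map_smul, CC_wedge hi, show CC i x om = 0 from cc_om _ _]
  simp

theorem CC_reg (i : Fin 6) (A : M6) (m : Fin 9) : IsReg (chart i) fun x => CC i x A m := by
  have h : ∀ (A : M6) k l, IsReg (chart i) fun x => red i (YY i x) A k l := fun A k l =>
    ((IsReg.const _ _).sub ((isReg_ratio k i).mul (IsReg.const _ _))).sub
      ((IsReg.const _ _).mul (isReg_ratio l i))
  exact (h A _ _).sub ((h A _ _).mul (h om _ _))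

noncomputable def gg (i j : Fin 6) (x : PP 5) : Matrix (Fin 9) (Fin 9) ℂ :=
  Matrix.of fun a b => CC i x (bas j b) a

theorem gg_mulVec (i j : Fin 6) (x : PP 5) (u : Fin 9 → ℂ) : gg i j x *ᵥ u = CC i x (ss j u) := by
  funext a
  simp [gg, mulVec, dotProduct, ss, mul_comm]

theorem gg_CC {i j : Fin 6} {x : PP 5} (hi : x ∈ chart i) (hj : x ∈ chart j) {A : M6}
    (hA : Skew A) : gg i j x *ᵥ CC j x A = CC i x A := by
  rw [gg_mulVec, CC_ss_CC hi hj hA]

/-- The quotient of the second exterior power of `T(-1)` by the section `om`. -/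
noncomputable def EE : VB 5 (Fin 9) where
  ι := Fin 6
  U := chart
  isOpen := isZOpen_chart
  cover := exists_chart
  g := gg
  reg i j a b := (CC_reg i _ a).mono Set.inter_subset_left
  self i x _ := by
    ext a b
    simp only [gg, of_apply, CC, cc_bas, Pi.single_apply, one_apply]
  cocycle i j k x hi hj _ := by
    ext a b
    exact congrFun (gg_CC hi hj (skew_wedge (ee (pr k b).1) (ee (pr k b).2))) a

end Pool.Agent.Lib.MP_07564b_ag
end

-- part Pool.Agent.Lib.MP_07564b_ag.Unif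
section

set_option autoImplicit false

namespace Pool.Agent.Lib.MP_07564b_ag

open Matrix

/-- The splitting type. -/
def aa (m : Fin 9) : ℤ := if m.val < 4 then 1 else 0

def PL (j : Fin 6) : Fin 6 × Fin 6 := ![(2, 3), (2, 4), (2, 5), (3, 4), (3, 5), (4, 5)] j

/-- The index pair attached to the frame vector `m`, omitting the pair `PL j`. -/
def fp (j : Fin 6) (m : Fin 9) : Fin 6 × Fin 6 :=
  if h : m.val < 4 then (0, ⟨m.val + 2, by omega⟩) else PL (j.succAbove ⟨m.val - 4, by omega⟩)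

theorem t_fp : ∀ j m, (fp j m).1 < (fp j m).2 ∧ fp j m ≠ PL j ∧ 2 ≤ (fp j m).2 ∧
    (m.val < 4 → (fp j m).1 = 0) ∧ (¬ m.val < 4 → 2 ≤ (fp j m).1) := by decide
theorem t_fpi : ∀ j m m', fp j m = fp j m' → m = m' := by decide
theorem t_PL : ∀ j, (PL j).1 < (PL j).2 ∧ 2 ≤ (PL j).1 := by decide
theorem t_PLc : ∀ k l : Fin 6, 2 ≤ k → k < l → ∃ j, PL j = (k, l) := by decide

/-- Frame before the change of basis; `c` is the chart of the line. -/
def fr0 (j : Fin 6) (c : Fin 2) (m : Fin 9) : M6 :=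
  if m.val < 4 then (if c = 0 then wedge (ee 1) (ee (fp j m).2) else - wedge (ee 0) (ee (fp j m).2))
  else wedge (ee (fp j m).1) (ee (fp j m).2)

theorem skew_fr0 (j : Fin 6) (c : Fin 2) (m : Fin 9) : Skew (fr0 j c m) := by
  unfold fr0
  split_ifs
  · exact skew_wedge _ _
  · simpa using (skew_wedge (ee 0) (ee (fp j m).2)).smul (-1)
  · exact skew_wedge _ _

theorem conj_wedge (T : M6) (a b : V6) : T * wedge a b * Tᵀ = wedge (T *ᵥ a) (T *ᵥ b) := by
  have h : ∀ a b : V6, wedge a b = vecMulVec a b - vecMulVec b a := by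
    intro a b; ext k l; simp [wedge, vecMulVec_apply]
  rw [h, h, Matrix.mul_sub, Matrix.sub_mul, mul_vecMulVec, mul_vecMulVec, vecMulVec_mul,
    vecMulVec_mul, vecMul_transpose, vecMul_transpose]

theorem Skew.conj {A : M6} (hA : Skew A) (T : M6) : Skew (T * A * Tᵀ) := by
  have h : Aᵀ = - A := by ext k l; exact hA k l
  intro k l
  have : (T * A * Tᵀ)ᵀ = - (T * A * Tᵀ) := by
    rw [transpose_mul, transpose_mul, transpose_transpose, h]; simp [Matrix.mul_assoc]
  exact congrFun (congrFun this k) l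

theorem om_mul : om * om = -1 := by
  have : ∀ k l : Fin 6, ∑ j, omZ k j * omZ j l = if k = l then -1 else 0 := by decide
  ext k l
  have h := congrArg (Int.cast : ℤ → ℂ) (this k l)
  push_cast at h
  simp only [mul_apply, om, of_apply, h, Matrix.neg_apply, one_apply]
  split_ifs <;> simp

/-- A non-degenerate form has a non-zero entry outside the first two rows and columns. -/
theorem exists_pair {W : M6} (hW : Skew W) (hi : Function.Injective W.mulVec) :
    ∃ j, W (PL j).1 (PL j).2 ≠ 0 := by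
  by_contra hc
  push Not at hc
  have h0 : ∀ k l : Fin 6, 2 ≤ k → 2 ≤ l → W k l = 0 := by
    intro k l hk hl
    rcases lt_trichotomy k l with g | g | g
    · obtain ⟨j, hj⟩ := t_PLc k l hk g
      simpa [hj] using hc j
    · subst g; exact hW.diag k
    · obtain ⟨j, hj⟩ := t_PLc l k hl g
      rw [hW l k, neg_eq_zero]
      simpa [hj] using hc j
  let N : Matrix (Fin 2) (Fin 4) ℂ := Matrix.of fun r s => W (Fin.castAdd 4 r) (Fin.natAdd 2 s)
  obtain ⟨u, hu, hu0⟩ : ∃ u ∈ LinearMap.ker N.mulVecLin, u ≠ 0 :=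
    Submodule.exists_mem_ne_zero_of_ne_bot (LinearMap.ker_ne_bot_of_finrank_lt (by simp))
  have hu' : N *ᵥ u = 0 := hu
  have h1 := congrFun hu' 0
  have h2 := congrFun hu' 1
  simp only [N, mulVec, dotProduct, Fin.sum_univ_four, of_apply, Pi.zero_apply] at h1 h2
  have : W *ᵥ ![0, 0, u 0, u 1, u 2, u 3] = W *ᵥ 0 := by
    rw [mulVec_zero]
    funext k
    have e : (W *ᵥ ![0, 0, u 0, u 1, u 2, u 3]) k =
        W k 2 * u 0 + W k 3 * u 1 + W k 4 * u 2 + W k 5 * u 3 := by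
      simp [mulVec, dotProduct, Fin.sum_univ_succ]; ring
    rw [e]
    by_cases hk : 2 ≤ k
    · simp [h0 k 2 hk (by decide), h0 k 3 hk (by decide), h0 k 4 hk (by decide),
        h0 k 5 hk (by decide)]
    · have : k = 0 ∨ k = 1 := by omega
      rcases this with rfl | rfl
      · exact h1
      · exact h2
  have h3 := hi this
  apply hu0
  funext s
  fin_cases s
  · simpa using congrFun h3 2
  · simpa using congrFun h3 3
  · simpa using congrFun h3 4
  · simpa using congrFun h3 5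

theorem fr0_entry (j : Fin 6) (c : Fin 2) (m : Fin 9) (k l : Fin 6) (hkl : k < l) (hk : 2 ≤ k) :
    fr0 j c m k l = if fp j m = (k, l) then 1 else 0 := by
  obtain ⟨h1, -, h3, h4, h5⟩ := t_fp j m
  unfold fr0
  by_cases hm : m.val < 4
  · have := h4 hm
    have e : fp j m ≠ (k, l) := fun e => by rw [e] at this; simp at this; omega
    rw [if_pos hm, if_neg e]
    split_ifs
    · rw [wedge_ee _ _ _ _ (by omega) hkl, if_neg (by simp; omega)]
    · rw [Matrix.neg_apply, wedge_ee _ _ _ _ (by omega) hkl, if_neg (by simp; omega), neg_zero]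
  · rw [if_neg hm, wedge_ee _ _ _ _ h1 hkl]

theorem fr0_row (j : Fin 6) (m m' : Fin 9) (hm' : m'.val < 4) :
    fr0 j 0 m 1 (fp j m').2 = (if m = m' then 1 else 0) ∧ fr0 j 0 m 0 (fp j m').2 = 0 ∧
    fr0 j 1 m 0 (fp j m').2 = (if m = m' then -1 else 0) ∧ fr0 j 1 m 1 (fp j m').2 = 0 := by
  obtain ⟨h1, -, h3, h4, h5⟩ := t_fp j m
  obtain ⟨-, -, h3', h4', -⟩ := t_fp j m'
  have hi := t_fpi j m m'
  have h6 := h4' hm'
  unfold fr0
  by_cases hm : m.val < 4
  · have h7 := h4 hm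
    have e : (fp j m).2 = (fp j m').2 ↔ m = m' :=
      ⟨fun e => hi (Prod.ext (h7.trans h6.symm) e), fun e => by rw [e]⟩
    simp only [if_pos hm, if_true, one_ne_zero, if_false, Matrix.neg_apply]
    rw [wedge_ee _ _ _ _ (by omega) (by omega), wedge_ee _ _ _ _ (by omega) (by omega),
      wedge_ee _ _ _ _ (by omega) (by omega), wedge_ee _ _ _ _ (by omega) (by omega)]
    simp only [Prod.mk.injEq, e]
    by_cases h : m = m' <;> simp [h]
  · have h7 := h5 hm
    have e : m ≠ m' := fun e => hm (e ▸ hm')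
    simp only [if_neg hm, if_neg e]
    rw [wedge_ee _ _ _ _ h1 (by omega), wedge_ee _ _ _ _ h1 (by omega)]
    refine ⟨if_neg ?_, if_neg ?_, if_neg ?_, if_neg ?_⟩ <;>
      (intro e'; rw [(Prod.mk.inj e').1] at h7; simp at h7)

theorem frame_indep (j : Fin 6) (c : Fin 2) (y : Fin 2 → ℂ) (hy : y c ≠ 0) (u : Fin 9 → ℂ)
    (v : V6) (l : ℂ) (W : M6) (hW : W (PL j).1 (PL j).2 ≠ 0)
    (h : ∑ m, u m • fr0 j c m = wedge ![y 0, y 1, 0, 0, 0, 0] v + l • W) : u = 0 := by
  have hz : ∀ k : Fin 6, 2 ≤ k → (![y 0, y 1, 0, 0, 0, 0] : V6) k = 0 := by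
    intro k hk
    fin_cases k <;> simp at hk ⊢
  have hE : ∀ k k', ∑ m, u m * fr0 j c m k k' =
      wedge ![y 0, y 1, 0, 0, 0, 0] v k k' + l * W k k' := fun k k' => by
    simpa [Matrix.sum_apply] using congrFun (congrFun h k) k'
  have hl : l = 0 := by
    obtain ⟨p1, p2⟩ := t_PL j
    have := hE (PL j).1 (PL j).2
    simp only [fr0_entry j c _ _ _ p1 p2, (t_fp j _).2.1, if_false, mul_zero,
      Finset.sum_const_zero, wedge, of_apply, hz _ p2, hz _ (p2.trans p1.le), zero_mul, sub_zero,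
      zero_add] at this
    exact (mul_eq_zero.1 this.symm).resolve_right hW
  funext m
  obtain ⟨h1, -, h3, h4, h5⟩ := t_fp j m
  by_cases hm : m.val < 4
  · have e0 := hE 0 (fp j m).2
    have e1 := hE 1 (fp j m).2
    simp only [hl, zero_mul, add_zero, wedge, of_apply, hz _ h3, mul_zero, sub_zero] at e0 e1
    have hc : c = 0 ∨ c = 1 := by omega
    rcases hc with rfl | rfl
    · simp only [(fr0_row j _ m hm).1, (fr0_row j _ m hm).2.1] at e0 e1
      simp [hy] at e0 e1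
      simp [e1, e0]
    · simp only [(fr0_row j _ m hm).2.2.1, (fr0_row j _ m hm).2.2.2] at e0 e1
      simp [hy] at e0 e1
      simpa [e1] using e0
  · have := hE (fp j m).1 (fp j m).2
    have e : ∀ m', fp j m' = ((fp j m).1, (fp j m).2) ↔ m' = m :=
      fun m' => ⟨fun e => t_fpi j m' m e, fun e => by rw [e]⟩
    simp only [fr0_entry j c _ _ _ h1 (h5 hm), e, hl, wedge, of_apply, hz _ h3, hz _ (h5 hm)]
      at this
    simpa using this

theorem split_g (α β : Fin 9 → Fin 2) (x : PP 1) :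
    (dsum fun s => (Kind.O (aa s)).bundle 1).g α β x =
      diagonal fun c => ratio (β c.1) (α c.1) x ^ aa c.1 := by
  ext ⟨a, p⟩ ⟨b, q⟩
  by_cases h : a = b
  · subst h
    have : p = q := Subsingleton.elim (α := Fin 1) p q
    subst this
    simp only [dsum, blockDiagonal'_apply_eq, diagonal_apply_eq]
    exact (congrArg (ratio (β a) (α a) x ^ aa a * ·) (Matrix.one_apply_eq (n := Fin 1) p)).trans
      (mul_one _)
  · simp only [dsum, blockDiagonal'_apply_ne _ _ _ h]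
    rw [diagonal_apply_ne]
    exact fun e => h (congrArg Sigma.fst e)

theorem uniform_EE : Uniform EE := by
  refine ⟨aa, fun φ hφ => ?_⟩
  obtain ⟨T, hT, hφT⟩ := exists_ext φ hφ
  have hT' : IsUnit Tᵀ.det := by rwa [det_transpose]
  let W : M6 := T⁻¹ * om * (T⁻¹)ᵀ
  have hWom : T * W * Tᵀ = om := by
    simp only [W, ← Matrix.mul_assoc]
    rw [mul_nonsing_inv _ hT, Matrix.one_mul, Matrix.mul_assoc, ← transpose_mul,
      mul_nonsing_inv _ hT, transpose_one, Matrix.mul_one]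
  have hW : Function.Injective W.mulVec := by
    rw [mulVec_injective_iff_isUnit]
    have h1 : IsUnit om := IsUnit.of_mul_eq_one (- om) (by rw [Matrix.mul_neg, om_mul, neg_neg])
    rw [← hWom, isUnit_iff_isUnit_det, det_mul, det_mul] at h1
    rw [isUnit_iff_isUnit_det]
    exact isUnit_of_mul_isUnit_right (isUnit_of_mul_isUnit_left h1)
  obtain ⟨j, hj⟩ := exists_pair (skew_om.conj T⁻¹) hW
  let fr : Fin 2 → Fin 9 → M6 := fun c m => T * fr0 j c m * Tᵀ
  have sfr : ∀ c m, Skew (fr c m) := fun c m => (skew_fr0 j c m).conj T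
  let X : PP 1 → PP 5 := Projectivization.map φ hφ
  have hX : ∀ x i, X x ∈ chart i → ∀ v : V6,
      CC i (X x) (T * wedge ![x.rep 0, x.rep 1, 0, 0, 0, 0] v * Tᵀ) = 0 := by
    intro x i hi v
    obtain ⟨c, hc, e⟩ := map_rep φ hφ x
    have : T *ᵥ ![x.rep 0, x.rep 1, 0, 0, 0, 0] = c⁻¹ • (X x).rep := by
      rw [← hφT, e, smul_smul, inv_mul_cancel₀ hc, one_smul]
    rw [conj_wedge, this, wedge_smul_left]
    exact CC_wedge hi _
  have hrel : ∀ x i, X x ∈ chart i → ∀ (a b : Fin 2) (m : Fin 9), x ∈ chart a → x ∈ chart b →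
      CC i (X x) (fr b m) = ratio b a x ^ aa m • CC i (X x) (fr a m) := by
    intro x i hi a b m ha hb
    by_cases hab : a = b
    · subst hab; simp [ratio_self a x ha]
    by_cases hm : m.val < 4
    · have h0 := hX x i hi (ee (fp j m).2)
      have e : wedge ![x.rep 0, x.rep 1, 0, 0, 0, 0] (ee (fp j m).2) =
          x.rep 1 • fr0 j 0 m - x.rep 0 • fr0 j 1 m := by
        have : (![x.rep 0, x.rep 1, 0, 0, 0, 0] : V6) = x.rep 0 • ee 0 + x.rep 1 • ee 1 := by
          funext k; fin_cases k <;> simp [ee]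
        rw [this]
        ext k l
        simp [fr0, hm, wedge]
        ring
      rw [e, Matrix.mul_sub, Matrix.sub_mul, Matrix.mul_smul, Matrix.smul_mul, Matrix.mul_smul,
        Matrix.smul_mul, map_sub, map_smul, map_smul, sub_eq_zero] at h0
      have ha' : x.rep a ≠ 0 := ha
      have hab' : (a = 0 ∧ b = 1) ∨ (a = 1 ∧ b = 0) := by omega
      simp only [aa, if_pos hm, zpow_one, ratio, div_eq_inv_mul, mul_smul]
      rcases hab' with ⟨rfl, rfl⟩ | ⟨rfl, rfl⟩
      · simp only [fr]; rw [h0, smul_smul, inv_mul_cancel₀ ha', one_smul]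
      · simp only [fr]; rw [← h0, smul_smul, inv_mul_cancel₀ ha', one_smul]
    · simp [aa, hm, fr, fr0]
  let k : Hom (dsum fun s => (Kind.O (aa s)).bundle 1) (EE.comap φ hφ) :=
    { m := fun α i x => Matrix.of fun r c => CC i (X x) (fr (α c.1) c.1) r
      reg := fun α i r c => ((CC_reg i _ r).comap φ hφ).mono Set.inter_subset_right
      compat := by
        intro (α : Fin 9 → Fin 2) (β : Fin 9 → Fin 2) (i : Fin 6) (i' : Fin 6) x hα hβ hi hi'
        rw [split_g α β x]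
        ext r c
        rw [mul_diagonal, of_apply, mul_comm, ← smul_eq_mul, ← Pi.smul_apply,
          ← hrel x i hi (α c.1) (β c.1) c.1 (Set.mem_iInter.1 hα c.1) (Set.mem_iInter.1 hβ c.1)]
        exact congrFun (gg_CC hi hi' (sfr (β c.1) c.1)) r }
  let e : (Σ s : Fin 9, Fin ((Kind.O (aa s)).rk 1)) ≃ Fin 9 :=
    { toFun := fun c => c.1
      invFun := fun s => ⟨s, (0 : Fin 1)⟩
      left_inv := fun ⟨s, p⟩ => by
        have : p = (0 : Fin 1) := Subsingleton.elim (α := Fin 1) _ _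
        rw [this]
      right_inv := fun _ => rfl }
  refine iso_of_inj k e fun (α : Fin 9 → Fin 2) (i : Fin 6) x hα hi => ?_
  obtain ⟨c0, hc0⟩ := exists_chart x
  change Function.Injective (k.m α i x).mulVecLin
  rw [← LinearMap.ker_eq_bot, LinearMap.ker_eq_bot']
  intro u hu
  have hα' : ∀ m, x ∈ chart (α m) := fun m => Set.mem_iInter.1 hα m
  let u' : Fin 9 → ℂ := fun m => u (e.symm m) * ratio (α m) c0 x ^ aa m
  have h1 : CC i (X x) (T * (∑ m, u' m • fr0 j c0 m) * Tᵀ) = 0 := by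
    rw [Matrix.mul_sum, Matrix.sum_mul, map_sum, ← hu]
    funext r
    simp only [Matrix.mul_smul, Matrix.smul_mul, map_smul, Finset.sum_apply, mulVecLin_apply,
      mulVec, dotProduct, k, of_apply]
    rw [← e.symm.sum_comp]
    refine Finset.sum_congr rfl fun m _ => ?_
    change _ = CC i (X x) (fr (α m) m) r * _
    rw [hrel x i hi c0 (α m) m hc0 (hα' m)]
    simp only [u', fr, Pi.smul_apply, smul_eq_mul]
    ring
  obtain ⟨v, l, h2⟩ := CC_ker hi ((skew_sum _ fun m => (skew_fr0 j c0 m).smul _).conj T) h1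
  obtain ⟨c, hc, ec⟩ := map_rep φ hφ x
  have h3 : ∑ m, u' m • fr0 j c0 m =
      wedge ![x.rep 0, x.rep 1, 0, 0, 0, 0] (T⁻¹ *ᵥ (c • v)) + l • W := by
    have : T * (∑ m, u' m • fr0 j c0 m) * Tᵀ =
        T * (wedge ![x.rep 0, x.rep 1, 0, 0, 0, 0] (T⁻¹ *ᵥ (c • v)) + l • W) * Tᵀ := by
      rw [h2, Matrix.mul_add, Matrix.add_mul, Matrix.mul_smul, Matrix.smul_mul, hWom, conj_wedge,
        mulVec_mulVec, mul_nonsing_inv _ hT, one_mulVec, ← wedge_smul_left, ← hφT, ← ec]
    have h4 := congrArg (fun A => T⁻¹ * A * (Tᵀ)⁻¹) this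
    simpa only [Matrix.mul_assoc, mul_nonsing_inv _ hT', Matrix.mul_one,
      nonsing_inv_mul_cancel_left _ _ hT] using h4
  have h5 := frame_indep j c0 x.rep hc0 u' _ l W hj h3
  funext c
  have h6 := congrFun h5 c.1
  have h7 : ratio (α c.1) c0 x ^ aa c.1 ≠ 0 := zpow_ne_zero _ (div_ne_zero (hα' c.1) hc0)
  have h8 : e.symm c.1 = c := e.left_inv c
  simp only [u', h8, Pi.zero_apply, mul_eq_zero, h7, or_false] at h6
  exact h6

end Pool.Agent.Lib.MP_07564b_ag
end

-- part Pool.Agent.Lib.MP_07564b_ag.Non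
section

set_option autoImplicit false

namespace Pool.Agent.Lib.MP_07564b_ag

open Matrix

theorem ee_ne {a b : Fin 6} (h : a ≠ b) (t : ℂ) : ee a + t • ee b ≠ 0 := fun e => by
  have := congrFun e a
  simp [ee, h] at this

/-- The point `[e_a + t e_b]`. -/
noncomputable def ln {a b : Fin 6} (h : a ≠ b) (t : ℂ) : PP 5 := pt (ee a) (ee b) (ee_ne h) t

/-- The base point `[e_0]`. -/
noncomputable def x0 : PP 5 := Projectivization.mk ℂ (ee 0) (by simp [ee])

theorem ln_zero {b : Fin 6} (h : (0 : Fin 6) ≠ b) : ln h 0 = x0 := by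
  simp [ln, pt, x0]

theorem ln_rep {a b : Fin 6} (h : a ≠ b) (t : ℂ) :
    ∃ c : ℂ, c ≠ 0 ∧ (ln h t).rep = c • (ee a + t • ee b) := pt_rep _ _ _ t

theorem ln_mem {a b : Fin 6} (h : a ≠ b) (t : ℂ) : ln h t ∈ chart a := by
  obtain ⟨c, hc, e⟩ := ln_rep h t
  simp [chart, e, ee, h, hc]

theorem ln_mem' {a b : Fin 6} (h : a ≠ b) {t : ℂ} (ht : t ≠ 0) : ln h t ∈ chart b := by
  obtain ⟨c, hc, e⟩ := ln_rep h t
  simp [chart, e, ee, h.symm, hc, ht]

theorem ln_ratio {a b : Fin 6} (h : a ≠ b) (t : ℂ) : ratio b a (ln h t) = t := by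
  obtain ⟨c, hc, e⟩ := ln_rep h t
  simp [ratio, e, ee, h, h.symm, hc]

theorem ln_inv {a b : Fin 6} (h : a ≠ b) {t : ℂ} (ht : t ≠ 0) : ln h.symm t⁻¹ = ln h t := by
  simp only [ln, pt]
  rw [Projectivization.mk_eq_mk_iff']
  exact ⟨t⁻¹, by rw [smul_add, smul_smul, inv_mul_cancel₀ ht, one_smul]; exact add_comm _ _⟩

theorem x0_mem : x0 ∈ chart 0 := ln_zero (b := 1) (by decide) ▸ ln_mem _ 0

theorem CC_ln {a b : Fin 6} (h : a ≠ b) (t : ℂ) {i : Fin 6} (hi : ln h t ∈ chart i) (w : V6) :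
    CC i (ln h t) (- wedge (ee a) w) = t • CC i (ln h t) (wedge (ee b) w) := by
  obtain ⟨c, hc, e⟩ := ln_rep h t
  have h1 := CC_wedge hi (c⁻¹ • w)
  have h2 : wedge (ln h t).rep (c⁻¹ • w) = wedge (ee a) w + t • wedge (ee b) w := by
    rw [e, wedge_smul_left, smul_smul, mul_inv_cancel₀ hc, one_smul]
    ext k l; simp [wedge]; ring
  rw [h2, map_add, map_smul] at h1
  rw [map_neg, neg_eq_iff_add_eq_zero, h1]

theorem IsReg.diff_ln {U : Set (PP 5)} (hU : IsZOpen U) {f : PP 5 → ℂ} (hf : IsReg U f)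
    {a b : Fin 6} (h : a ≠ b) (hm : ∀ t, ln h t ∈ U) : Differentiable ℂ fun t => f (ln h t) :=
  fun t => hf.diffAt hU _ _ _ t (hm t)

theorem isReg_dot {U : Set (PP 5)} {f g : PP 5 → Fin 9 → ℂ} (hf : ∀ m, IsReg U fun x => f x m)
    (hg : ∀ m, IsReg U fun x => g x m) : IsReg U fun x => f x ⬝ᵥ g x :=
  IsReg.sum _ fun m _ => (hf m).mul (hg m)

/-- No non-zero map to a line bundle of degree at most zero. -/
theorem noA {e : ℤ} (he : e ≤ 0) (R : Fin 6 → PP 5 → Fin 9 → ℂ)
    (hr : ∀ i m, IsReg (chart i) fun x => R i x m)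
    (hc : ∀ i j x, x ∈ chart i → x ∈ chart j → ratio j i x ^ e • R j x = R i x ᵥ* gg i j x) :
    R 0 x0 = 0 := by
  funext m
  have hk : (0 : Fin 6) ≠ (pr 0 m).1 := (t_ne 0 m).1.symm
  have := vanish (f := fun t => R 0 (ln hk t) ⬝ᵥ CC 0 (ln hk t) (bas 0 m))
    (g := fun u => R (pr 0 m).1 (ln hk.symm u) ⬝ᵥ
      CC (pr 0 m).1 (ln hk.symm u) (- wedge (ee 0) (ee (pr 0 m).2)))
    ((isReg_dot (hr 0) (CC_reg 0 _)).diff_ln (isZOpen_chart 0) hk (ln_mem hk))
    ((isReg_dot (hr _) (CC_reg _ _)).diff_ln (isZOpen_chart _) hk.symm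
      (ln_mem hk.symm)).continuous.continuousAt (e := e - 1) (by omega) (fun t ht => by
      rw [ln_inv hk ht, CC_ln hk t (ln_mem' hk ht), ← gg_CC (ln_mem hk t) (ln_mem' hk ht)
        (A := bas 0 m) (skew_wedge _ _), dotProduct_mulVec,
        ← hc _ _ _ (ln_mem hk t) (ln_mem' hk ht), ln_ratio, smul_dotProduct, dotProduct_smul,
        zpow_sub_one₀ ht, smul_eq_mul, smul_eq_mul, bas]
      field_simp) 0
  simpa [ln_zero, CC, cc_bas] using this

theorem lam {j k l p q : Fin 6} (hj : (0 : Fin 6) ≠ j) (hk : k ≠ 0 ∧ k ≠ j) (hl : l ≠ 0 ∧ l ≠ j)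
    (hp : p ≠ 0 ∧ p ≠ j) (hq : q ≠ 0 ∧ q ≠ j) (L0 Lj : ℂ → Fin 9 → ℂ)
    (h0 : ∀ m, Differentiable ℂ fun t => L0 t m) (h1 : ∀ m, Differentiable ℂ fun t => Lj t m)
    {e : ℤ} (he : e < 0) (hrel : ∀ t, t ≠ 0 → L0 t = t ^ e • (gg 0 j (ln hj t) *ᵥ Lj t⁻¹)) :
    ss 0 (L0 0) k l * om p q - ss 0 (L0 0) p q * om k l = 0 := by
  have hd : ∀ (i : Fin 6) (L : ℂ → Fin 9 → ℂ), (∀ m, Differentiable ℂ fun t => L t m) →
      Differentiable ℂ fun t => ss i (L t) k l * om p q - ss i (L t) p q * om k l := by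
    intro i L hL
    simp only [ss, Matrix.sum_apply, Matrix.smul_apply, smul_eq_mul]
    fun_prop
  refine vanish (hd 0 L0 h0) (hd j Lj h1).continuous.continuousAt he (fun t ht => ?_) 0
  obtain ⟨v, c, e1⟩ := ss_CC (ln_mem hj t) (skew_ss j (Lj t⁻¹))
  obtain ⟨d, -, e2⟩ := ln_rep hj t
  have e3 : ∀ u : Fin 9 → ℂ, ss 0 (t ^ e • u) = t ^ e • ss 0 u := fun u => by
    simp [ss, Finset.smul_sum, smul_smul]
  rw [hrel t ht, gg_mulVec, e3]
  conv_rhs => rw [e1]
  simp only [Matrix.smul_apply, Matrix.add_apply, wedge, of_apply, e2, ee, Pi.smul_apply,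
    Pi.add_apply, Pi.single_apply, hk.1, hk.2, hl.1, hl.2, hp.1, hp.2, hq.1, hq.2, if_false,
    smul_eq_mul]
  ring

theorem ss_entry (i : Fin 6) (u : Fin 9 → ℂ) (m : Fin 9) :
    ss i u (pr i m).1 (pr i m).2 = u m := by
  simp only [ss, Matrix.sum_apply, Matrix.smul_apply, smul_eq_mul, bas]
  rw [Finset.sum_eq_single m]
  · rw [wedge_ee _ _ _ _ (t_ne i m).2.2.1 (t_ne i m).2.2.1]; simp
  · intro m' _ h
    rw [wedge_ee _ _ _ _ (t_ne i m').2.2.1 (t_ne i m).2.2.1, if_neg fun e => h (t_inj i m' m e),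
      mul_zero]
  · simp

theorem ss_pq (i : Fin 6) (u : Fin 9 → ℂ) : ss i u (pp i) (qq i) = 0 := by
  simp only [ss, Matrix.sum_apply, Matrix.smul_apply, smul_eq_mul, bas]
  refine Finset.sum_eq_zero fun m _ => ?_
  rw [wedge_ee _ _ _ _ (t_ne i m).2.2.1 (t_ne i m).2.2.2.2, if_neg (t_ne i m).2.2.2.1, mul_zero]

/-- The conclusion of `lam` for the line in direction `j`. -/
def Kill (j : Fin 6) (u : Fin 9 → ℂ) : Prop :=
  ∀ k l p q : Fin 6, k ≠ 0 ∧ k ≠ j → l ≠ 0 ∧ l ≠ j → p ≠ 0 ∧ p ≠ j → q ≠ 0 ∧ q ≠ j →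
    ss 0 u k l * om p q - ss 0 u p q * om k l = 0

theorem kill23 {u : Fin 9 → ℂ} (h2 : Kill 2 u) (h3 : Kill 3 u) : u = u 8 • Pi.single 8 1 := by
  have t1 : ∀ m : Fin 9, m ≠ 8 → omZ (pr 0 m).1 (pr 0 m).2 = 0 ∧ (pr 0 m).1 ≠ 0 ∧ (pr 0 m).2 ≠ 0 ∧
      (((pr 0 m).1 ≠ 2 ∧ (pr 0 m).2 ≠ 2) ∨ ((pr 0 m).1 ≠ 3 ∧ (pr 0 m).2 ≠ 3)) := by decide
  have t2 : om 4 5 = 1 := by simp [om, omZ]
  funext m
  by_cases hm : m = 8
  · simp [hm]
  · obtain ⟨a1, a2, a3, a4⟩ := t1 m hm
    have a5 : om (pr 0 m).1 (pr 0 m).2 = 0 := by simp [om, a1]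
    rcases a4 with ⟨b1, b2⟩ | ⟨b1, b2⟩
    · simpa [ss_entry, t2, a5, hm] using h2 _ _ 4 5 ⟨a2, b1⟩ ⟨a3, b2⟩ (by decide) (by decide)
    · simpa [ss_entry, t2, a5, hm] using h3 _ _ 4 5 ⟨a2, b1⟩ ⟨a3, b2⟩ (by decide) (by decide)

/-- No non-zero map from a line bundle of positive degree. -/
theorem noB {e : ℤ} (he : 0 < e) (L : Fin 6 → PP 5 → Fin 9 → ℂ)
    (hr : ∀ i m, IsReg (chart i) fun x => L i x m)
    (hc : ∀ i j x, x ∈ chart i → x ∈ chart j → gg i j x *ᵥ L j x = ratio j i x ^ e • L i x) :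
    L 0 x0 = 0 := by
  have key : ∀ j, (0 : Fin 6) ≠ j → Kill j (L 0 x0) := by
    intro j hj k l p q hk hl hp hq
    have := lam hj hk hl hp hq (fun t => L 0 (ln hj t)) (fun u => L j (ln hj.symm u))
      (fun m => (hr 0 m).diff_ln (isZOpen_chart 0) hj (ln_mem hj))
      (fun m => (hr j m).diff_ln (isZOpen_chart j) hj.symm (ln_mem hj.symm))
      (e := -e) (by omega) (fun t ht => by
        rw [ln_inv hj ht, hc _ _ _ (ln_mem hj t) (ln_mem' hj ht), ln_ratio, smul_smul,
          _root_.zpow_neg, inv_mul_cancel₀ (zpow_ne_zero e ht), one_smul])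
    rwa [ln_zero] at this
  have h1 := key 1 (by decide) 4 5 2 3 (by decide) (by decide) (by decide) (by decide)
  have h2 : ss 0 (L 0 x0) 4 5 = L 0 x0 8 := ss_entry 0 _ 8
  have h3 : ss 0 (L 0 x0) 2 3 = 0 := ss_pq 0 _
  have h4 : om 2 3 = 1 := by simp [om, omZ]
  rw [h2, h3, h4, zero_mul, sub_zero, mul_one] at h1
  rw [kill23 (key 2 (by decide)) (key 3 (by decide)), h1, zero_smul]

theorem coc_O {n : ℕ} {κ : Kind} {e : ℤ} (h : κ = .O e) (i j : Fin (n + 1)) (x : PP n)
    (p q : Fin (κ.rk n)) : p = q ∧ κ.coc n i j x p q = ratio j i x ^ e := by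
  subst h
  have : p = q := Subsingleton.elim (α := Fin 1) p q
  subst this
  exact ⟨rfl, (congrArg (ratio j i x ^ e * ·) (Matrix.one_apply_eq (n := Fin 1) p)).trans
    (mul_one _)⟩

theorem not_sum : ¬ SumOTOm EE := by
  rintro ⟨m, κ, h, k, hk⟩
  have hmem : ∀ (i : Fin 6) (x : PP 5), x ∈ chart i →
      x ∈ (dsum fun s => (κ s).bundle 5).U fun _ => i := fun i x hx => Set.mem_iInter.2 fun _ => hx
  obtain ⟨h1, h2⟩ := hk (0 : Fin 6) (fun _ => (0 : Fin 6)) x0 x0_mem (hmem 0 x0 x0_mem)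
  obtain ⟨s, e, hs⟩ : ∃ s e, κ s = .O e := by
    by_contra hc
    push Not at hc
    have c1 := congrArg Matrix.trace h1
    rw [trace_mul_comm, h2, trace_one, trace_one, Fintype.card_sigma] at c1
    have c2 : ∀ s, Fintype.card (Fin ((κ s).rk 5)) = 5 := by
      intro s
      have := hc s
      cases hκ : κ s with
      | O e => exact absurd hκ (this e)
      | T c => exact Fintype.card_fin 5
      | Om d => exact Fintype.card_fin 5
    simp only [c2, Finset.sum_const, Finset.card_univ, Fintype.card_fin, smul_eq_mul] at c1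
    have : m * 5 = 9 := by exact_mod_cast c1
    omega
  obtain ⟨p⟩ : Nonempty (Fin ((κ s).rk 5)) := by rw [hs]; exact ⟨(0 : Fin 1)⟩
  have hg : ∀ (i j : Fin 6) (x : PP 5) (c : Σ s, Fin ((κ s).rk 5)),
      (dsum fun s => (κ s).bundle 5).g (fun _ => i) (fun _ => j) x ⟨s, p⟩ c =
        (if c = ⟨s, p⟩ then ratio j i x ^ e else 0) ∧
      (dsum fun s => (κ s).bundle 5).g (fun _ => i) (fun _ => j) x c ⟨s, p⟩ =
        (if c = ⟨s, p⟩ then ratio j i x ^ e else 0) := by
    rintro i j x ⟨s', q⟩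
    by_cases hs' : s' = s
    · subst hs'
      obtain ⟨rfl, a⟩ := coc_O hs i j x p q
      simp only [dsum, blockDiagonal'_apply_eq, if_true]
      exact ⟨a, a⟩
    · have : (⟨s', q⟩ : Σ s, Fin ((κ s).rk 5)) ≠ ⟨s, p⟩ := fun e => hs' (congrArg Sigma.fst e)
      simp only [dsum, blockDiagonal'_apply_ne _ _ _ hs', blockDiagonal'_apply_ne _ _ _ (Ne.symm hs'),
        if_neg this, and_self]
  have h3 := congrFun (congrFun h2 ⟨s, p⟩) ⟨s, p⟩
  rw [one_apply_eq, mul_apply] at h3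
  rcases le_or_gt e 0 with he | he
  · have := noA he (fun i x b => h.m i (fun _ => i) x ⟨s, p⟩ b)
      (fun i b => (h.reg i (fun _ => i) ⟨s, p⟩ b).mono fun x hx => ⟨hx, hmem i x hx⟩)
      (fun i j x hi hj => by
        funext b
        have := congrFun (congrFun (h.compat i j (fun _ => i) (fun _ => j) x hi hj
          (hmem i x hi) (hmem j x hj)) ⟨s, p⟩) b
        rw [mul_apply, mul_apply] at this
        simp only [(hg i j x _).1, ite_mul, zero_mul, Finset.sum_ite_eq', Finset.mem_univ,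
          if_true] at this
        exact this)
    have h4 : ∀ b, h.m (0 : Fin 6) (fun _ => (0 : Fin 6)) x0 ⟨s, p⟩ b = 0 := congrFun this
    simp [h4] at h3
  · have := noB he (fun i x b => k.m (fun _ => i) i x b ⟨s, p⟩)
      (fun i b => (k.reg (fun _ => i) i b ⟨s, p⟩).mono fun x hx => ⟨hmem i x hx, hx⟩)
      (fun i j x hi hj => by
        funext b
        have := congrFun (congrFun (k.compat (fun _ => i) (fun _ => j) i j x
          (hmem i x hi) (hmem j x hj) hi hj) b) ⟨s, p⟩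
        rw [mul_apply, mul_apply] at this
        simp only [(hg i j x _).2, mul_ite, mul_zero, Finset.sum_ite_eq', Finset.mem_univ,
          if_true] at this
        rw [Pi.smul_apply, smul_eq_mul, mul_comm, ← this]
        rfl)
    have h4 : ∀ b, k.m (fun _ => (0 : Fin 6)) (0 : Fin 6) x0 b ⟨s, p⟩ = 0 := congrFun this
    simp [h4] at h3

/-- The coordinate swap. -/
noncomputable def sw : V6 ≃ₗ[ℂ] V6 := LinearEquiv.funCongrLeft ℂ ℂ (Equiv.swap (3 : Fin 6) 4)

theorem sw_ee (a : Fin 6) : sw (ee a) = ee (Equiv.swap 3 4 a) := by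
  funext k
  simp only [sw, ee, LinearEquiv.funCongrLeft_apply, LinearMap.funLeft_apply, Pi.single_apply,
    Equiv.swap_apply_eq_iff]

theorem sw_ln {a b a' b' : Fin 6} (h : a ≠ b) (h' : a' ≠ b') (ha : Equiv.swap 3 4 a = a')
    (hb : Equiv.swap 3 4 b = b') (t : ℂ) :
    Projectivization.map sw.toLinearMap sw.injective (ln h t) = ln h' t := by
  simp only [ln, pt, Projectivization.map_mk]
  congr 1
  simp [sw_ee, ha, hb]

theorem not_hom : ¬ Homogeneous EE := by
  intro H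
  obtain ⟨h, k, hk⟩ := H sw
  let X : PP 5 → PP 5 := Projectivization.map sw.toLinearMap sw.injective
  have hX0 : X x0 = x0 := by
    rw [← ln_zero (b := 1) (by decide)]
    exact sw_ln _ _ (by decide) (by decide) 0
  have key : ∀ (j j' : Fin 6), (0 : Fin 6) ≠ j → (0 : Fin 6) ≠ j' → Equiv.swap 3 4 j = j' →
      ∀ w : V6,
      Kill j (h.m (0 : Fin 6) (0 : Fin 6) x0 *ᵥ CC 0 x0 (wedge (ee j') w)) := by
    intro j j' hj hj' e w a b p q ha hb hp hq
    have e1 : ∀ t, X (ln hj t) = ln hj' t := fun t => sw_ln hj hj' (by decide) e t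
    have e2 : ∀ t, X (ln hj.symm t) = ln hj'.symm t := fun t =>
      sw_ln hj.symm hj'.symm e (by decide) t
    have hreg : ∀ (i α : Fin 6) (A : M6) (m : Fin 9), IsReg (X ⁻¹' chart i ∩ chart α)
        fun x => (h.m i α x *ᵥ CC i (X x) A) m := fun i α A m =>
      isReg_dot (f := fun x => h.m i α x m) (fun b => h.reg i α m b)
        (fun b => ((CC_reg i A b).comap sw.toLinearMap sw.injective).mono Set.inter_subset_left)
    have hop : ∀ i α : Fin 6, IsZOpen (X ⁻¹' chart i ∩ chart α) := fun i α =>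
      ((isZOpen_chart i).comap sw.toLinearMap sw.injective).inter (isZOpen_chart α)
    have := lam hj ha hb hp hq
      (fun t => h.m (0 : Fin 6) (0 : Fin 6) (ln hj t) *ᵥ
        CC 0 (X (ln hj t)) (wedge (ee j') w))
      (fun u => h.m j' j (ln hj.symm u) *ᵥ
        CC j' (X (ln hj.symm u)) (- wedge (ee 0) w))
      (fun m => (hreg 0 0 _ m).diff_ln (hop 0 0) hj fun t =>
        ⟨by rw [Set.mem_preimage, e1]; exact ln_mem hj' t, ln_mem hj t⟩)
      (fun m => (hreg j' j _ m).diff_ln (hop j' j) hj.symm fun t =>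
        ⟨by rw [Set.mem_preimage, e2]; exact ln_mem hj'.symm t, ln_mem hj.symm t⟩)
      (e := -1) (by omega) (fun t ht => by
        have m1 : X (ln hj t) ∈ chart 0 := by rw [e1]; exact ln_mem hj' t
        have m2 : X (ln hj t) ∈ chart j' := by rw [e1]; exact ln_mem' hj' ht
        have c := h.compat (0 : Fin 6) j' (0 : Fin 6) j (ln hj t) m1 m2
          (ln_mem hj t) (ln_mem' hj ht)
        change gg 0 j (ln hj t) * _ = _ * gg 0 j' (X (ln hj t)) at c
        have sk : Skew (- wedge (ee 0) w) := by simpa using (skew_wedge (ee 0) w).smul (-1)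
        rw [ln_inv hj ht, mulVec_mulVec, c, ← mulVec_mulVec, gg_CC m1 m2 sk, e1,
          CC_ln hj' t (ln_mem hj' t), mulVec_smul, smul_smul, _root_.zpow_neg_one,
          inv_mul_cancel₀ ht,
          one_smul])
    simpa only [ln_zero, hX0] using this
  set H := h.m (0 : Fin 6) (0 : Fin 6) x0 with hH
  have hinj : ∀ u, H *ᵥ u = 0 → u = 0 := by
    intro u hu
    have := (hk (0 : Fin 6) (0 : Fin 6) x0 (by change X x0 ∈ chart 0; rw [hX0]; exact x0_mem)
      x0_mem).1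
    rw [← one_mulVec u, ← this, ← mulVec_mulVec, hu, mulVec_zero]
  have kneg : ∀ j u, Kill j (H *ᵥ (- u)) → Kill j (H *ᵥ u) := by
    intro j u hu a b p q ha hb hp hq
    have := hu a b p q ha hb hp hq
    have e : ss 0 (H *ᵥ (- u)) = - ss 0 (H *ᵥ u) := by simp [ss, mulVec_neg]
    rw [e, Matrix.neg_apply, Matrix.neg_apply] at this
    linear_combination - this
  have b4 : CC 0 x0 (wedge (ee 2) (ee 4)) = Pi.single 4 1 := cc_bas 0 _ 4
  have b8 : CC 0 x0 (wedge (ee 4) (ee 5)) = Pi.single 8 1 := cc_bas 0 _ 8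
  have b4' : CC 0 x0 (wedge (ee 4) (ee 2)) = - Pi.single 4 1 := by
    rw [← b4, ← map_neg]
    congr 1
    ext k l; simp [wedge]
  have b8' : CC 0 x0 (wedge (ee 2) (ee 3)) = - Pi.single 8 1 := by
    have e1 : om = wedge (ee 0) (ee 1) + (wedge (ee 2) (ee 3) + wedge (ee 4) (ee 5)) := by
      ext k l
      fin_cases k <;> fin_cases l <;> simp [om, omZ, wedge, ee]
    have e2 : CC 0 x0 (wedge (ee 0) (ee 1)) = 0 := by
      have := CC_ln (a := 0) (b := 1) (by decide) 0 (ln_mem _ 0) (ee 1)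
      rw [ln_zero, map_neg, zero_smul, neg_eq_zero] at this
      exact this
    have e3 : CC 0 x0 om = 0 := cc_om _ _
    rw [e1, map_add, map_add, e2, zero_add, b8] at e3
    exact eq_neg_of_add_eq_zero_left e3
  have k1 := kill23 (b4 ▸ key 2 2 (by decide) (by decide) (by decide) (ee 4))
    (kneg _ _ (b4' ▸ key 3 4 (by decide) (by decide) (by decide) (ee 2)))
  have k2 := kill23 (kneg _ _ (b8' ▸ key 2 2 (by decide) (by decide) (by decide) (ee 3)))
    (b8 ▸ key 3 4 (by decide) (by decide) (by decide) (ee 5))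
  set c1 := (H *ᵥ Pi.single 4 1) 8
  set c2 := (H *ᵥ Pi.single 8 1) 8
  have k3 := hinj (c2 • Pi.single 4 1 - c1 • Pi.single 8 1) (by
    rw [mulVec_sub, mulVec_smul, mulVec_smul, k1, k2, smul_smul, smul_smul, mul_comm, sub_self])
  have k4 : c2 = 0 := by simpa using congrFun k3 4
  have k5 := hinj (Pi.single 8 1) (by rw [k2, k4, zero_smul])
  simpa using congrFun k5 8

end Pool.Agent.Lib.MP_07564b_ag
end
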