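import Mathlib

set_option autoImplicit false

namespace Pool.Agent.Lib.MP_07564b_ag

open MvPolynomial

/-- Complex projective space of dimension `n`. -/
abbrev PP (n : ℕ) : Type := Projectivization ℂ (Fin (n + 1) → ℂ)

/-- Zariski open subsets of projective space: unions of sets `Q ≠ 0` with `Q` homogeneous. -/
def IsZOpen {n : ℕ} (U : Set (PP n)) : Prop :=
  ∀ x ∈ U, ∃ (d : ℕ) (Q : MvPolynomial (Fin (n + 1)) ℂ), Q.IsHomogeneous d ∧
    eval x.rep Q ≠ 0 ∧ ∀ y : PP n, eval y.rep Q ≠ 0 → y ∈ U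

/-- Regular functions on `U`: locally a quotient of two homogeneous polynomials of the same
degree with non-vanishing denominator. -/
def IsReg {n : ℕ} (U : Set (PP n)) (f : PP n → ℂ) : Prop :=
  ∀ x ∈ U, ∃ (d : ℕ) (P Q : MvPolynomial (Fin (n + 1)) ℂ), P.IsHomogeneous d ∧
    Q.IsHomogeneous d ∧ eval x.rep Q ≠ 0 ∧
    ∀ y ∈ U, eval y.rep Q ≠ 0 → f y = eval y.rep P / eval y.rep Q

theorem eval_smul_hom {σ : Type} {P : MvPolynomial σ ℂ} {d : ℕ} (hP : P.IsHomogeneous d) (c : ℂ)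
    (v : σ → ℂ) : eval (c • v) P = c ^ d * eval v P := by
  rw [eval_eq, eval_eq, Finset.mul_sum]
  refine Finset.sum_congr rfl fun m hm => ?_
  simp only [Pi.smul_apply, smul_eq_mul, mul_pow, Finset.prod_mul_distrib,
    Finset.prod_pow_eq_pow_sum]
  rw [← hP.degree_eq_sum_deg_support hm]
  ring

variable {n : ℕ}

theorem IsZOpen.univ : IsZOpen (Set.univ : Set (PP n)) :=
  fun _ _ => ⟨0, 1, isHomogeneous_one _ _, by simp, fun _ _ => trivial⟩

theorem IsZOpen.iInter {α : Type} [Fintype α] {U : α → Set (PP n)} (h : ∀ a, IsZOpen (U a)) :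
    IsZOpen (⋂ a, U a) := by
  intro x hx
  choose d Q hQ h1 h2 using fun a => h a x (Set.mem_iInter.1 hx a)
  refine ⟨∑ a, d a, ∏ a, Q a, IsHomogeneous.prod _ _ _ fun a _ => hQ a, ?_, fun y hy => ?_⟩
  · rw [map_prod]; exact Finset.prod_ne_zero_iff.2 fun a _ => h1 a
  · rw [map_prod] at hy
    exact Set.mem_iInter.2 fun a => h2 a y (Finset.prod_ne_zero_iff.1 hy a (Finset.mem_univ a))

theorem IsZOpen.inter {U V : Set (PP n)} (hU : IsZOpen U) (hV : IsZOpen V) : IsZOpen (U ∩ V) := by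
  intro x hx
  obtain ⟨d, Q, hQ, h1, h2⟩ := hU x hx.1
  obtain ⟨d', Q', hQ', h1', h2'⟩ := hV x hx.2
  refine ⟨d + d', Q * Q', hQ.mul hQ', by rw [map_mul]; exact mul_ne_zero h1 h1', fun y hy => ?_⟩
  rw [map_mul] at hy
  exact ⟨h2 y (left_ne_zero_of_mul hy), h2' y (right_ne_zero_of_mul hy)⟩

theorem IsReg.mono {U V : Set (PP n)} {f : PP n → ℂ} (h : IsReg U f) (hV : V ⊆ U) : IsReg V f := by
  intro x hx
  obtain ⟨d, P, Q, h1, h2, h3, h4⟩ := h x (hV hx)
  exact ⟨d, P, Q, h1, h2, h3, fun y hy => h4 y (hV hy)⟩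

theorem IsReg.congr {U : Set (PP n)} {f g : PP n → ℂ} (h : IsReg U f) (e : ∀ x ∈ U, g x = f x) :
    IsReg U g := by
  intro x hx
  obtain ⟨d, P, Q, h1, h2, h3, h4⟩ := h x hx
  exact ⟨d, P, Q, h1, h2, h3, fun y hy hy' => (e y hy).trans (h4 y hy hy')⟩

theorem IsReg.const (U : Set (PP n)) (c : ℂ) : IsReg U fun _ => c :=
  fun _ _ => ⟨0, C c, 1, isHomogeneous_C _ _, isHomogeneous_one _ _, by simp, by simp⟩

theorem IsReg.add {U : Set (PP n)} {f g : PP n → ℂ} (hf : IsReg U f) (hg : IsReg U g) :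
    IsReg U fun x => f x + g x := by
  intro x hx
  obtain ⟨d, P, Q, h1, h2, h3, h4⟩ := hf x hx
  obtain ⟨d', P', Q', h1', h2', h3', h4'⟩ := hg x hx
  refine ⟨d + d', P * Q' + Q * P', Q * Q', (h1.mul h2').add (h2.mul h1'), h2.mul h2',
    by rw [map_mul]; exact mul_ne_zero h3 h3', fun y hy hy' => ?_⟩
  rw [map_mul] at hy'
  have a := left_ne_zero_of_mul hy'
  have b := right_ne_zero_of_mul hy'
  simp only [h4 y hy a, h4' y hy b, map_add, map_mul]
  field_simp

theorem IsReg.mul {U : Set (PP n)} {f g : PP n → ℂ} (hf : IsReg U f) (hg : IsReg U g) :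
    IsReg U fun x => f x * g x := by
  intro x hx
  obtain ⟨d, P, Q, h1, h2, h3, h4⟩ := hf x hx
  obtain ⟨d', P', Q', h1', h2', h3', h4'⟩ := hg x hx
  refine ⟨d + d', P * P', Q * Q', h1.mul h1', h2.mul h2',
    by rw [map_mul]; exact mul_ne_zero h3 h3', fun y hy hy' => ?_⟩
  rw [map_mul] at hy'
  have a := left_ne_zero_of_mul hy'
  have b := right_ne_zero_of_mul hy'
  simp only [h4 y hy a, h4' y hy b, map_mul]
  field_simp

theorem IsReg.neg {U : Set (PP n)} {f : PP n → ℂ} (hf : IsReg U f) : IsReg U fun x => - f x :=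
  ((IsReg.const U (-1)).mul hf).congr fun x _ => by ring

theorem IsReg.sub {U : Set (PP n)} {f g : PP n → ℂ} (hf : IsReg U f) (hg : IsReg U g) :
    IsReg U fun x => f x - g x :=
  (hf.add hg.neg).congr fun x _ => by ring

theorem IsReg.inv {U : Set (PP n)} {f : PP n → ℂ} (hf : IsReg U f) (h0 : ∀ x ∈ U, f x ≠ 0) :
    IsReg U fun x => (f x)⁻¹ := by
  intro x hx
  obtain ⟨d, P, Q, h1, h2, h3, h4⟩ := hf x hx
  have hP : eval x.rep P ≠ 0 := fun e => h0 x hx (by rw [h4 x hx h3, e, zero_div])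
  refine ⟨d + d, Q * Q, P * Q, h2.mul h2, h1.mul h2,
    by rw [map_mul]; exact mul_ne_zero hP h3, fun y hy hy' => ?_⟩
  rw [map_mul] at hy'
  have a := left_ne_zero_of_mul hy'
  have b := right_ne_zero_of_mul hy'
  simp only [h4 y hy b, map_mul]
  field_simp

theorem IsReg.sum {U : Set (PP n)} {α : Type} (s : Finset α) {f : α → PP n → ℂ}
    (hf : ∀ a ∈ s, IsReg U (f a)) : IsReg U fun x => ∑ a ∈ s, f a x := by
  classical
  induction s using Finset.induction_on with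
  | empty => simpa using IsReg.const U 0
  | insert a s ha ih =>
    simp only [Finset.sum_insert ha]
    exact (hf a (Finset.mem_insert_self _ _)).add
      (ih fun b hb => hf b (Finset.mem_insert_of_mem hb))

theorem IsReg.prod {U : Set (PP n)} {α : Type} (s : Finset α) {f : α → PP n → ℂ}
    (hf : ∀ a ∈ s, IsReg U (f a)) : IsReg U fun x => ∏ a ∈ s, f a x := by
  classical
  induction s using Finset.induction_on with
  | empty => simpa using IsReg.const U 1
  | insert a s ha ih =>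
    simp only [Finset.prod_insert ha]
    exact (hf a (Finset.mem_insert_self _ _)).mul
      (ih fun b hb => hf b (Finset.mem_insert_of_mem hb))

theorem IsReg.pow {U : Set (PP n)} {f : PP n → ℂ} (hf : IsReg U f) (k : ℕ) :
    IsReg U fun x => f x ^ k := by
  induction k with
  | zero => simpa using IsReg.const U 1
  | succ k ih => exact (ih.mul hf).congr fun x _ => pow_succ _ _

theorem IsReg.zpow {U : Set (PP n)} {f : PP n → ℂ} (hf : IsReg U f) (h0 : ∀ x ∈ U, f x ≠ 0)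
    (k : ℤ) : IsReg U fun x => f x ^ k := by
  cases k with
  | ofNat k => simpa using hf.pow k
  | negSucc k => simpa using (hf.pow (k + 1)).inv fun x hx => pow_ne_zero _ (h0 x hx)

/-- The standard affine chart `x_i ≠ 0`. -/
def chart (i : Fin (n + 1)) : Set (PP n) := {x | x.rep i ≠ 0}

/-- The rational function `x_j / x_i`. -/
noncomputable def ratio (j i : Fin (n + 1)) (x : PP n) : ℂ := x.rep j / x.rep i

theorem isZOpen_chart (i : Fin (n + 1)) : IsZOpen (chart i) :=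
  fun x hx => ⟨1, X i, isHomogeneous_X _ _, by simpa [chart] using hx,
    fun y hy => by simpa [chart] using hy⟩

theorem exists_chart (x : PP n) : ∃ i, x ∈ chart i := Function.ne_iff.1 x.rep_nonzero

theorem isReg_ratio (j i : Fin (n + 1)) : IsReg (chart i) (ratio j i) :=
  fun x hx => ⟨1, X j, X i, isHomogeneous_X _ _, isHomogeneous_X _ _, by simpa [chart] using hx,
    fun y _ _ => by simp [ratio]⟩

theorem isReg_ratio_zpow (i j : Fin (n + 1)) (e : ℤ) :
    IsReg (chart i ∩ chart j) fun x => ratio j i x ^ e :=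
  ((isReg_ratio j i).mono Set.inter_subset_left).zpow (fun _ hx => div_ne_zero hx.2 hx.1) e

theorem exists_comp {m : ℕ} (φ : (Fin (m + 1) → ℂ) →ₗ[ℂ] (Fin (n + 1) → ℂ)) {d : ℕ}
    {P : MvPolynomial (Fin (n + 1)) ℂ} (hP : P.IsHomogeneous d) :
    ∃ P' : MvPolynomial (Fin (m + 1)) ℂ, P'.IsHomogeneous d ∧ ∀ v, eval v P' = eval (φ v) P := by
  refine ⟨aeval (fun i => ∑ j, C (φ (Pi.single j 1) i) * X j) P, ?_, fun v => ?_⟩
  · simpa using hP.aeval (n := 1) (fun i => ∑ j, C (φ (Pi.single j 1) i) * X j)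
      (fun i => IsHomogeneous.sum _ _ _ fun j _ => isHomogeneous_C_mul_X _ _)
  · have : (fun i => eval v (∑ j, C (φ (Pi.single j 1) i) * X j)) = φ v := by
      funext i
      conv_rhs => rw [pi_eq_sum_univ' v]
      simp [map_sum, mul_comm]
    rw [← this, ← coe_aeval_eq_eval, ← coe_aeval_eq_eval]
    simp only [RingHom.coe_coe]
    rw [comp_aeval_apply]

theorem map_rep {m : ℕ} (φ : (Fin (m + 1) → ℂ) →ₗ[ℂ] (Fin (n + 1) → ℂ))
    (hφ : Function.Injective φ) (y : PP m) :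
    ∃ c : ℂ, c ≠ 0 ∧ (Projectivization.map φ hφ y).rep = c • φ y.rep := by
  conv => enter [1, c, 2, 1]; rw [← y.mk_rep, Projectivization.map_mk]
  obtain ⟨a, ha⟩ := Projectivization.exists_smul_eq_mk_rep ℂ (φ y.rep)
    (map_zero φ ▸ hφ.ne y.rep_nonzero)
  exact ⟨a, a.ne_zero, ha.symm⟩

theorem IsZOpen.comap {m : ℕ} (φ : (Fin (m + 1) → ℂ) →ₗ[ℂ] (Fin (n + 1) → ℂ))
    (hφ : Function.Injective φ) {U : Set (PP n)} (hU : IsZOpen U) :
    IsZOpen (Projectivization.map φ hφ ⁻¹' U) := by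
  intro x hx
  obtain ⟨d, Q, h1, h2, h3⟩ := hU _ hx
  obtain ⟨Q', q1, q2⟩ := exists_comp φ h1
  refine ⟨d, Q', q1, ?_, fun y hy => h3 _ ?_⟩
  · obtain ⟨c, -, e⟩ := map_rep φ hφ x
    rw [e, eval_smul_hom h1] at h2
    rw [q2]; exact right_ne_zero_of_mul h2
  · obtain ⟨c, hc, e⟩ := map_rep φ hφ y
    rw [e, eval_smul_hom h1, ← q2]
    exact mul_ne_zero (pow_ne_zero _ hc) hy

theorem IsReg.comap {m : ℕ} (φ : (Fin (m + 1) → ℂ) →ₗ[ℂ] (Fin (n + 1) → ℂ))
    (hφ : Function.Injective φ) {U : Set (PP n)} {f : PP n → ℂ} (hf : IsReg U f) :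
    IsReg (Projectivization.map φ hφ ⁻¹' U) fun x => f (Projectivization.map φ hφ x) := by
  intro x hx
  obtain ⟨d, P, Q, h0, h1, h2, h3⟩ := hf _ hx
  obtain ⟨P', p1, p2⟩ := exists_comp φ h0
  obtain ⟨Q', q1, q2⟩ := exists_comp φ h1
  refine ⟨d, P', Q', p1, q1, ?_, fun y hy hy' => ?_⟩
  · obtain ⟨c, -, e⟩ := map_rep φ hφ x
    rw [e, eval_smul_hom h1] at h2
    rw [q2]; exact right_ne_zero_of_mul h2
  · obtain ⟨c, hc, e⟩ := map_rep φ hφ y
    have hc' := pow_ne_zero d hc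
    dsimp only
    rw [h3 _ hy (by rw [e, eval_smul_hom h1, ← q2]; exact mul_ne_zero hc' hy'), e,
      eval_smul_hom h0, eval_smul_hom h1, p2, q2, mul_div_mul_left _ _ hc']

end Pool.Agent.Lib.MP_07564b_ag
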